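import Mathlib

set_option autoImplicit false

namespace Pool.Agent.Results.MP_496e47_co.ThreeThree

/-- cells `(row, column)` of the skew shape `lam / mu` -/
abbrev Cell (lam mu : YoungDiagram) : Type := ↥(lam.cells \ mu.cells)

/-- Standard Young tableaux with `n` entries; the entry `i : Fin n` stands for `i + 1`. -/
def SYT (lam mu : YoungDiagram) (n : ℕ) : Type :=
  {T : Cell lam mu → Fin n // Function.Bijective T ∧
    (∀ a b : Cell lam mu, a.1.1 = b.1.1 → a.1.2 < b.1.2 → T a < T b) ∧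
    (∀ a b : Cell lam mu, a.1.2 = b.1.2 → a.1.1 < b.1.1 → T a < T b)}

/-- descent set: the next entry lies in a strictly lower row -/
def Des {lam mu : YoungDiagram} {n : ℕ} (T : SYT lam mu n) : Finset (Fin n) :=
  Finset.univ.filter fun i =>
    ∃ a b : Cell lam mu, T.1 a = i ∧ (T.1 b : ℕ) = i + 1 ∧ a.1.1 < b.1.1

/-- cyclic descent map -/
def IsCDes {lam mu : YoungDiagram} {n : ℕ} (c : SYT lam mu n → Finset (Fin n)) : Prop :=
  ∃ φ : SYT lam mu n → SYT lam mu n, Function.Bijective φ ∧ ∀ T,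
    (∀ i : Fin n, (i : ℕ) + 1 < n → (i ∈ c T ↔ i ∈ Des T)) ∧
    c (φ T) = (c T).image (finRotate n) ∧ (c T).Nonempty ∧ c T ≠ Finset.univ

/-- the set of descent numbers -/
def D (lam mu : YoungDiagram) (n : ℕ) : Set ℤ := {d | ∃ T : SYT lam mu n, ((Des T).card : ℤ) = d}

/-- the shape `(3, 3)` -/
def L : YoungDiagram where
  cells := Finset.range 2 ×ˢ Finset.range 3
  isLowerSet := by
    rintro ⟨a, b⟩ ⟨c, d⟩ ⟨h1, h2⟩ h
    simp only [Finset.coe_product, Finset.coe_range, Set.mem_prod, Set.mem_Iio] at *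
    omega

def E : YoungDiagram where
  cells := ∅
  isLowerSet := by simpa using isLowerSet_empty

def tab : Fin 5 → ℕ × ℕ → Fin 6 := fun k p =>
  (![[0, 1, 2, 3, 4, 5], [0, 1, 3, 2, 4, 5], [0, 1, 4, 2, 3, 5], [0, 2, 3, 1, 4, 5],
    [0, 2, 4, 1, 3, 5]] k).getD (3 * p.1 + p.2) 0

def mk (k : Fin 5) : SYT L E 6 := ⟨fun a => tab k a.1, by revert k; decide +kernel⟩

def cd : Fin 5 → Finset (Fin 6) := ![{2, 5}, {1, 3, 5}, {1, 4}, {0, 3}, {0, 2, 4}]

def nx : Fin 5 → Fin 5 := ![3, 4, 0, 2, 1]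

theorem mk_inj : Function.Injective mk := by
  have : ∀ j k : Fin 5, (∀ a : Cell L E, tab j a.1 = tab k a.1) → j = k := by decide +kernel
  exact fun j k h => this j k fun a => congrFun (congrArg Subtype.val h) a

theorem mk_surj : Function.Surjective mk := by
  rintro ⟨T, ⟨h0, -⟩, h1, h2⟩
  let c : Fin 6 → Cell L E := fun i => ⟨(i / 3, i % 3), by revert i; decide +kernel⟩
  have hc : ∀ a : Cell L E, ∃ i, c i = a := by decide +kernel
  have key : ∀ a b c d e f : Fin 6, (a < b ∧ b < c ∧ d < e ∧ e < f ∧ a < d ∧ b < e ∧ c < f ∧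
      b ≠ d ∧ c ≠ d ∧ c ≠ e) → ∃ k, tab k (0, 0) = a ∧ tab k (0, 1) = b ∧ tab k (0, 2) = c ∧
        tab k (1, 0) = d ∧ tab k (1, 1) = e ∧ tab k (1, 2) = f := by
    intro a b c d e f h
    obtain rfl : a = 0 := by omega
    obtain rfl : f = 5 := by omega
    revert b c d e
    decide +kernel
  obtain ⟨k, k0, k1, k2, k3, k4, k5⟩ := key (T (c 0)) (T (c 1)) (T (c 2)) (T (c 3)) (T (c 4))
    (T (c 5)) ⟨h1 _ _ rfl (by decide), h1 _ _ rfl (by decide), h1 _ _ rfl (by decide),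
    h1 _ _ rfl (by decide), h2 _ _ rfl (by decide), h2 _ _ rfl (by decide),
    h2 _ _ rfl (by decide), h0.ne (by decide), h0.ne (by decide), h0.ne (by decide)⟩
  refine ⟨k, Subtype.ext (funext fun a => ?_)⟩
  obtain ⟨i, rfl⟩ := hc a
  fin_cases i
  exacts [k0, k1, k2, k3, k4, k5]

noncomputable def eqv : Fin 5 ≃ SYT L E 6 := Equiv.ofBijective mk ⟨mk_inj, mk_surj⟩

theorem result : ∃ (lam mu : YoungDiagram) (n : ℕ), mu ≤ lam ∧
    (lam.cells \ mu.cells).card = n ∧ (∃! c : SYT lam mu n → Finset (Fin n), IsCDes c) ∧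
    ¬ ∃ k : ℤ, D lam mu n = {k - 1, k} := by
  refine ⟨L, E, 6, Finset.empty_subset _, by decide, ⟨fun T => cd (eqv.symm T),
    ⟨fun T => eqv (nx (eqv.symm T)), ?_, fun T => ?_⟩, ?_⟩, ?_⟩
  · exact eqv.bijective.comp ((by decide : Function.Bijective nx).comp eqv.symm.bijective)
  · obtain ⟨k, rfl⟩ := eqv.surjective T
    simp only [Equiv.symm_apply_apply]
    change (∀ i : Fin 6, (i : ℕ) + 1 < 6 → (i ∈ cd k ↔ i ∈ Des (mk k))) ∧ _
    revert k
    decide +kernel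
  · rintro c ⟨φ, -, h⟩
    funext T
    obtain ⟨k, rfl⟩ := eqv.surjective T
    obtain ⟨j, hj⟩ := eqv.surjective (φ (eqv k))
    have key : ∀ k j : Fin 5, ∀ s : Finset (Fin 6),
        (∀ i : Fin 6, (i : ℕ) + 1 < 6 → (i ∈ s ↔ i ∈ Des (mk k))) →
        (∀ i : Fin 6, (i : ℕ) + 1 < 6 → (i ∈ s.image (finRotate 6) ↔ i ∈ Des (mk j))) →
        s = cd k := by decide +kernel
    rw [Equiv.symm_apply_apply]
    refine key k j _ (h _).1 ?_
    rw [← (h _).2.1, ← hj]
    exact (h _).1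
  · rintro ⟨k, hk⟩
    have h1 : (1 : ℤ) ∈ D L E 6 := ⟨mk 0, by decide +kernel⟩
    have h3 : (3 : ℤ) ∈ D L E 6 := ⟨mk 4, by decide +kernel⟩
    rw [hk] at h1 h3
    simp only [Set.mem_insert_iff, Set.mem_singleton_iff] at h1 h3
    omega

end Pool.Agent.Results.MP_496e47_co.ThreeThree
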